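import Pool.Agent.H964.DP.Stm

/-! # Project DP (helper964), task LLN -/

set_option autoImplicit false

open Finset

namespace Pool.Agent.H278.DP

/-- functions of disjoint sets of coordinates are uncorrelated -/
theorem uncorr {l : ℕ} (B : Fin l → Prop) [DecidablePred B] (f g : (Fin l → Fin 4) → ℝ)
    (hf : ∀ τ τ' : Fin l → Fin 4, (∀ i, B i → τ i = τ' i) → f τ = f τ')
    (hg : ∀ τ τ' : Fin l → Fin 4, (∀ i, ¬ B i → τ i = τ' i) → g τ = g τ') :
    (∑ τ, f τ * g τ) * 4 ^ l = (∑ τ, f τ) * ∑ τ, g τ := by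
  classical
  let mix : (Fin l → Fin 4) → (Fin l → Fin 4) → Fin l → Fin 4 :=
    fun τ τ' i => if B i then τ i else τ' i
  let Φ : (Fin l → Fin 4) × (Fin l → Fin 4) → (Fin l → Fin 4) × (Fin l → Fin 4) :=
    fun x => (mix x.1 x.2, mix x.2 x.1)
  have hΦ : Function.Involutive Φ := by
    rintro ⟨τ, τ'⟩
    simp only [Φ, mix]
    refine Prod.ext ?_ ?_
    · funext i
      by_cases h : B i
      · simp [h]
      · simp [h]
    · funext i
      by_cases h : B i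
      · simp [h]
      · simp [h]
  have h1 : (∑ τ, f τ) * ∑ τ, g τ = ∑ x : (Fin l → Fin 4) × (Fin l → Fin 4), f x.1 * g x.2 := by
    rw [Finset.sum_mul_sum, Fintype.sum_prod_type]
  have h2 : ∑ x : (Fin l → Fin 4) × (Fin l → Fin 4), f x.1 * g x.2 =
      ∑ x : (Fin l → Fin 4) × (Fin l → Fin 4), f (Φ x).1 * g (Φ x).2 :=
    (Equiv.sum_comp (hΦ.toPerm Φ)
      (fun x : (Fin l → Fin 4) × (Fin l → Fin 4) => f x.1 * g x.2)).symm
  have h3 : ∀ x : (Fin l → Fin 4) × (Fin l → Fin 4), f (Φ x).1 * g (Φ x).2 = f x.1 * g x.1 := by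
    rintro ⟨τ, τ'⟩
    have e1 : f (mix τ τ') = f τ := hf _ _ fun i hi => by simp only [mix]; rw [if_pos hi]
    have e2 : g (mix τ' τ) = g τ := hg _ _ fun i hi => by simp only [mix]; rw [if_neg hi]
    simp only [Φ]
    rw [e1, e2]
  rw [h1, h2, Fintype.sum_congr _ _ h3, Fintype.sum_prod_type, Finset.sum_mul]
  refine Finset.sum_congr rfl fun τ _ => ?_
  change f τ * g τ * 4 ^ l = ∑ _y : Fin l → Fin 4, f τ * g τ
  rw [Finset.sum_const, Finset.card_univ, nsmul_eq_mul]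
  simp only [Fintype.card_fun, Fintype.card_fin]
  push_cast
  ring

theorem t_LLN : Pool.Agent.H964.DP.S_LLN := by
  classical
  intro l u T hu hTu hT ζ Z zb hzb hloc hb hm
  have hN : (0 : ℝ) < 4 ^ l := by positivity
  have hT0 : (0 : ℝ) < T := by exact_mod_cast hT
  obtain ⟨X, hX⟩ : ∃ X : (Fin l → Fin 4) → ℝ, X = fun τ => ∑ t ∈ range T, ζ t τ := ⟨_, rfl⟩
  obtain ⟨μ, hμ⟩ : ∃ μ : ℝ, μ = (∑ τ, X τ) / 4 ^ l := ⟨_, rfl⟩
  obtain ⟨c, hc⟩ : ∃ c : ℕ → ℕ → ℝ, c = fun t s => ∑ τ, ζ t τ * ζ s τ -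
      (∑ τ, ζ t τ) * (∑ τ, ζ s τ) / 4 ^ l := ⟨_, rfl⟩
  have hcard : ∑ _τ : Fin l → Fin 4, (1 : ℝ) = 4 ^ l := by
    rw [Finset.sum_const, Finset.card_univ, nsmul_eq_mul, mul_one]
    simp only [Fintype.card_fun, Fintype.card_fin]
    push_cast
    rfl
  -- the variance
  have hvar : ∑ τ, (X τ - μ) ^ 2 = ∑ t ∈ range T, ∑ s ∈ range T, c t s := by
    have h1 : ∑ τ, (X τ - μ) ^ 2 = ∑ τ, X τ ^ 2 - (∑ τ, X τ) * (∑ τ, X τ) / 4 ^ l := by
      have e : ∀ τ, (X τ - μ) ^ 2 = X τ ^ 2 - 2 * μ * X τ + μ ^ 2 * 1 := fun τ => by ring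
      simp only [e]
      rw [Finset.sum_add_distrib, Finset.sum_sub_distrib, ← Finset.mul_sum, ← Finset.mul_sum,
        hcard, hμ]
      field_simp
      ring
    have h2 : ∑ τ, X τ ^ 2 = ∑ t ∈ range T, ∑ s ∈ range T, ∑ τ, ζ t τ * ζ s τ := by
      have e : ∀ τ, X τ ^ 2 = ∑ t ∈ range T, ∑ s ∈ range T, ζ t τ * ζ s τ := by
        intro τ
        rw [hX, sq, Finset.sum_mul_sum]
      simp only [e]
      rw [Finset.sum_comm]
      refine Finset.sum_congr rfl fun t _ => ?_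
      rw [Finset.sum_comm]
    have h3 : ∑ τ, X τ = ∑ t ∈ range T, ∑ τ, ζ t τ := by
      rw [hX, Finset.sum_comm]
    rw [h1, h2, h3, Finset.sum_mul_sum, Finset.sum_div, ← Finset.sum_sub_distrib]
    refine Finset.sum_congr rfl fun t _ => ?_
    rw [Finset.sum_div, ← Finset.sum_sub_distrib]
    refine Finset.sum_congr rfl fun s _ => ?_
    rw [hc]
  -- far blocks
  have hfar : ∀ t < T, ∀ s < T, t + u ≤ s → c t s = 0 := by
    intro t ht s hs hts
    have h1 := uncorr (l := l) (fun i => t ≤ i.val ∧ i.val < t + u) (ζ t) (ζ s)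
      (fun τ τ' h => hloc t ht τ τ' fun i h1 h2 => h i ⟨h1, h2⟩)
      (fun τ τ' h => hloc s hs τ τ' fun i h1 h2 => h i fun h3 => by omega)
    rw [hc]
    simp only
    rw [← h1, mul_div_assoc, div_self hN.ne', mul_one, sub_self]
  have hsym : ∀ t s, c t s = c s t := by
    intro t s
    rw [hc]
    simp only
    rw [mul_comm (∑ τ, ζ t τ)]
    congr 1
    exact Finset.sum_congr rfl fun τ _ => mul_comm _ _
  have hnear : ∀ t < T, ∀ s < T, c t s ≤ Z ^ 2 * 4 ^ l := by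
    intro t ht s hs
    rw [hc]
    simp only
    have h1 : ∑ τ, ζ t τ * ζ s τ ≤ ∑ _τ : Fin l → Fin 4, Z ^ 2 * 1 := by
      refine Finset.sum_le_sum fun τ _ => ?_
      obtain ⟨a1, a2⟩ := hb t ht τ
      obtain ⟨b1, b2⟩ := hb s hs τ
      nlinarith
    rw [← Finset.mul_sum, hcard] at h1
    have h2 : 0 ≤ (∑ τ, ζ t τ) * (∑ τ, ζ s τ) / 4 ^ l :=
      div_nonneg (mul_nonneg (Finset.sum_nonneg fun τ _ => (hb t ht τ).1)
        (Finset.sum_nonneg fun τ _ => (hb s hs τ).1)) hN.le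
    linarith
  have hrow : ∀ t < T, ∑ s ∈ range T, c t s ≤ 2 * u * (Z ^ 2 * 4 ^ l) := by
    intro t ht
    have h1 : ∀ s ∈ range T, c t s ≤ if (t + 1 - u ≤ s ∧ s < t + u) then Z ^ 2 * 4 ^ l else 0 := by
      intro s hs
      rw [mem_range] at hs
      by_cases h : t + 1 - u ≤ s ∧ s < t + u
      · rw [if_pos h]
        exact hnear t ht s hs
      · rw [if_neg h]
        by_cases h2 : t + u ≤ s
        · exact (hfar t ht s hs h2).le
        · have h3 : s + u ≤ t := by omega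
          rw [hsym]
          exact (hfar s hs t ht h3).le
    refine (Finset.sum_le_sum h1).trans ?_
    rw [← Finset.sum_filter, Finset.sum_const, nsmul_eq_mul]
    have h2 : ((range T).filter (fun s => t + 1 - u ≤ s ∧ s < t + u)).card ≤ 2 * u := by
      have h3 : (range T).filter (fun s => t + 1 - u ≤ s ∧ s < t + u) ⊆
          Finset.Ico (t + 1 - u) (t + u) := by
        intro s hs
        exact Finset.mem_Ico.2 (mem_filter.1 hs).2
      have h4 := Finset.card_le_card h3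
      rw [Nat.card_Ico] at h4
      omega
    have h5 : (((range T).filter (fun s => t + 1 - u ≤ s ∧ s < t + u)).card : ℝ) ≤ 2 * u := by
      exact_mod_cast h2
    exact mul_le_mul_of_nonneg_right h5 (by positivity)
  have hvar2 : ∑ τ, (X τ - μ) ^ 2 ≤ T * (2 * u * (Z ^ 2 * 4 ^ l)) := by
    rw [hvar]
    refine (Finset.sum_le_sum fun t ht => hrow t (mem_range.1 ht)).trans (le_of_eq ?_)
    rw [Finset.sum_const, card_range, nsmul_eq_mul]
  -- the mean
  have hmean : T * zb ≤ μ := by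
    have h3 : ∑ τ, X τ = ∑ t ∈ range T, ∑ τ, ζ t τ := by
      rw [hX, Finset.sum_comm]
    rw [hμ, h3, Finset.sum_div]
    have h4 : ∑ t ∈ range T, zb ≤ ∑ t ∈ range T, (∑ τ, ζ t τ) / 4 ^ l :=
      Finset.sum_le_sum fun t ht => hm t (mem_range.1 ht)
    rwa [Finset.sum_const, card_range, nsmul_eq_mul] at h4
  -- Chebyshev
  have hcheb : ((univ.filter (fun τ : Fin l → Fin 4 => ∑ t ∈ range T, ζ t τ ≤ T * zb / 2)).card : ℝ) *
      (T * zb / 2) ^ 2 ≤ ∑ τ, (X τ - μ) ^ 2 := by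
    have h1 : ∑ τ ∈ univ.filter (fun τ : Fin l → Fin 4 => ∑ t ∈ range T, ζ t τ ≤ T * zb / 2),
        (X τ - μ) ^ 2 ≤ ∑ τ, (X τ - μ) ^ 2 :=
      Finset.sum_le_sum_of_subset_of_nonneg (Finset.filter_subset _ _) fun _ _ _ => sq_nonneg _
    refine le_trans ?_ h1
    rw [← nsmul_eq_mul, ← Finset.sum_const]
    refine Finset.sum_le_sum fun τ hτ => ?_
    have h2 : X τ ≤ T * zb / 2 := by
      rw [hX]
      exact (mem_filter.1 hτ).2
    have h3 : 0 < (T : ℝ) * zb / 2 := by positivity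
    nlinarith
  have hfin := hcheb.trans hvar2
  rw [div_le_div_iff₀ hN (by positivity)]
  have h0 : 0 < (T : ℝ) := hT0
  have h4 : ((univ.filter (fun τ : Fin l → Fin 4 => ∑ t ∈ range T, ζ t τ ≤ T * zb / 2)).card : ℝ) *
      (T * zb ^ 2) * T ≤ 8 * u * Z ^ 2 * 4 ^ l * T := by
    nlinarith
  exact le_of_mul_le_mul_right h4 h0

end Pool.Agent.H278.DP
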